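import Pool.Agent.X208.LD.Tup

/-!
# The Sato–Tate law for products of curves: the laws of pairs give the laws of almost all products

Let `E_i`, `i ∈ I`, be abelian varieties over `ℚ` (or over a number field `K`), of dimension at most `g`, let
`X` be the space of the conjugacy classes of `USp(2g)` (for elliptic curves `X = [-2, 2]`, by the normalised
trace), `x_i(v) ∈ X` the Frobenius class of `E_i` at `v` (arbitrary at the bad primes) and `μ_i` the image of the
Haar measure of `ST(E_i)`. If the Sato–Tate group of `A = E_{i_0} × ... × E_{i_m}` is the product of the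
groups of the factors, the Sato–Tate law for `A` says that the tuples of the classes are equidistributed for the
product of the `μ_{i_j}`; in particular so are the numbers `a_i(A)(v)` of the problem, which are functions of
these tuples. For two elliptic curves over `ℚ` without complex multiplication that are not isogenous over the
algebraic closure this is known, for three or more it is open.

Assume the law for every two of the `E_i`. Then, with constants `C` that depend only on `X`, `ε` (and `Y`,
`m`), for every finite set `T ⊂ I`, at every large scale `N`:

1. For all data `y_v` in a compact metric space `Y`, arbitrary functions of the prime `v` (for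
   example the Frobenius classes of any other abelian variety, for which nothing is assumed), all but `C` of
   the `E_i` in `T` are independent of `y` and have the law `μ_i`, up to `ε`.
2. All but `C |T|^m` of the `|T|^(m+1)` products of `m + 1` members of `T` follow the Sato–Tate law, up to `ε`.
   So the proportion of the exceptions is at most `C / |T|`.
-/

set_option autoImplicit false

namespace Pool.Agent.Results.MP_753a9c_nt.AlmostAllTuples

open NumberField IsDedekindDomain Filter Topology MeasureTheory Pool.Agent.X208.LD

/-- **The laws of pairs imply the laws of almost all tuples, up to `ε`.** -/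
theorem result (X : Type) [MetricSpace X] [CompactSpace X] [MeasurableSpace X] [BorelSpace X]
    (ε : ℝ) (hε : 0 < ε) :
    -- 1. all but a bounded number of the families are nearly independent of given data
    (∀ (Y : Type) [MetricSpace Y] [CompactSpace Y], ∃ C : ℕ,
      ∀ (K : Type) [Field K] [NumberField K] (I : Type) (μ : I → Measure X)
        [∀ i, IsProbabilityMeasure (μ i)] (x : I → HeightOneSpectrum (𝓞 K) → X),
        (∀ i j, i ≠ j → PairLaw (μ i) (μ j) (x i) (x j)) →
        ∀ T : Finset I, ∀ᶠ N : ℕ in atTop, ∀ y : HeightOneSpectrum (𝓞 K) → Y,
          ∃ E : Finset I, E.card ≤ C ∧ ∀ i ∈ T, i ∉ E → Independent ε (μ i) y (x i) N) ∧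
    -- 2. almost all tuples follow the product law
    (∀ m : ℕ, ∃ C : ℕ,
      ∀ (K : Type) [Field K] [NumberField K] (I : Type) (μ : I → Measure X)
        [∀ i, IsProbabilityMeasure (μ i)] (x : I → HeightOneSpectrum (𝓞 K) → X),
        (∀ i j, i ≠ j → PairLaw (μ i) (μ j) (x i) (x j)) →
        ∀ T : Finset I, ∀ᶠ N : ℕ in atTop, ∃ E : Finset (Fin (m + 1) → I),
          E.card ≤ C * T.card ^ m ∧ ∀ a : Fin (m + 1) → I, (∀ j, a j ∈ T) → a ∉ E →
            Close ε (fun j => μ (a j)) (fun j => x (a j)) N) := by
  classical
  constructor
  · intro Y _ _
    obtain ⟨C, hC⟩ := indep_main X Y hε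
    refine ⟨C, fun K _ _ I μ _ x hpair T => ?_⟩
    filter_upwards [hC K I μ x hpair T] with N hN y
    obtain ⟨E, _, h1, h2⟩ := hN y
    exact ⟨E, h1, h2⟩
  · intro m
    obtain ⟨C, hC⟩ := tuples X (m + 1) hε
    refine ⟨C, fun K _ _ I μ _ x hpair T => ?_⟩
    filter_upwards [hC K I μ x hpair T] with N hN
    rcases Nat.eq_zero_or_pos T.card with h0 | h0
    · refine ⟨∅, by simp, fun a ha _ => ?_⟩
      rw [Finset.card_eq_zero] at h0
      have := ha 0
      rw [h0] at this
      simp at this
    · refine ⟨(Fintype.piFinset fun _ : Fin (m + 1) => T).filter fun a =>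
        ¬ Close ε (fun j => μ (a j)) (fun j => x (a j)) N, ?_, fun a ha hE => ?_⟩
      · have h1 : T.card * bad ε μ x T (m + 1) N ≤ T.card * (C * T.card ^ m) := by
          refine hN.trans (le_of_eq ?_)
          ring
        exact Nat.le_of_mul_le_mul_left h1 h0
      · by_contra hcon
        exact hE (Finset.mem_filter.2 ⟨Fintype.mem_piFinset.2 ha, hcon⟩)

end Pool.Agent.Results.MP_753a9c_nt.AlmostAllTuples
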