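import Pool.Agent.X35.GV.Hyper

/-!
# ALL class functions of Frobenius for the Jacobians of the members `C_n` of ALL families of hyperelliptic curves, compared with their averages
over the family modulo `p`, at all heights, for ALL integers `n` near `± α v_i`, outside a set of `α` of small dimension
-/

set_option autoImplicit false

namespace Pool.Agent.Results.MP_753a9c_nt.ClassFunctionsNearSequences

open Finset Polynomial

/-- The member `F_n(x)` of the family `F ∈ ℤ[T][x]`, modulo `p`. -/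
noncomputable def member (F : ℤ[X][X]) (n : ℤ) (p : ℕ) : (ZMod p)[X] :=
  (F.map (evalRingHom n)).map (Int.castRingHom (ZMod p))

/-- The curve `C : y² = f(x)` (`f` of degree `2 g + 1` or `2 g + 2`) is a smooth curve of genus `g` over `𝔽_p`: `p` is an odd prime, and `f` has
degree `2 g + 1` or `2 g + 2` and no multiple root. -/
def Good (g p : ℕ) (f : (ZMod p)[X]) : Prop :=
  p.Prime ∧ p ≠ 2 ∧ (f.natDegree = 2 * g + 1 ∨ f.natDegree = 2 * g + 2) ∧ f.Separable

open Classical in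
/-- The number `#C(𝔽)`, `𝔽` the field with `p ^ k` elements, of the points of the smooth projective curve `C : y² = f(x)` of genus `g`: the affine
points, and the points at infinity (one for each `y ∈ 𝔽` with `y² = c`, `c` the coefficient of `x ^ (2 g + 2)`). -/
noncomputable def points (g p k : ℕ) (f : (ZMod p)[X]) : ℕ :=
  if h : p.Prime then
    haveI : Fact p.Prime := ⟨h⟩
    Nat.card {P : GaloisField p k × GaloisField p k // P.2 ^ 2 = aeval P.1 f} +
      Nat.card {y : GaloisField p k // y ^ 2 = algebraMap (ZMod p) (GaloisField p k) (f.coeff (2 * g + 2))}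
  else 0

/-- The sum of the `k`-th powers of the normalised Frobenius eigenvalues on `H¹`: `(p ^ k + 1 - #C(𝔽)) / p ^ (k / 2)`, where
`𝔽` is the field with `p ^ k` elements. -/
noncomputable def powerSum (g p : ℕ) (f : (ZMod p)[X]) (k : ℕ) : ℝ :=
  ((p : ℝ) ^ k + 1 - points g p k f) / Real.sqrt p ^ k

open Classical in
/-- The value at Frobenius of the class function `Φ(s_1, ..., s_R)` for the Jacobian of `y² = f(x)` at `p`, `s_k` the power sums of the normalised
eigenvalues, if the curve is smooth of genus `g`, and `0` otherwise. -/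
noncomputable def classFunction (g : ℕ) {R : ℕ} (Φ : MvPolynomial (Fin R) ℚ) (p : ℕ) (f : (ZMod p)[X]) : ℝ :=
  if Good g p f then MvPolynomial.aeval (fun i : Fin R => powerSum g p f (i + 1)) Φ else 0

/-- The average of the class function over the members `F_t` of the family, `t = 0, ..., p - 1`. -/
noncomputable def average (g : ℕ) {R : ℕ} (Φ : MvPolynomial (Fin R) ℚ) (F : ℤ[X][X]) (p : ℕ) : ℝ :=
  (∑ t ∈ range p, classFunction g Φ p (member F t p)) / p

/-- The sum of `(Φ(Frob_p | F_n) - average) (log p) p ^ (- i σ)` over the odd primes `p ≤ x`. -/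
noncomputable def difference (g : ℕ) {R : ℕ} (Φ : MvPolynomial (Fin R) ℚ) (F : ℤ[X][X]) (n : ℤ) (x : ℕ) (σ : ℝ) : ℂ :=
  ∑ p ∈ (range (x + 1)).filter (fun p => p.Prime ∧ p ≠ 2),
    (((classFunction g Φ p (member F n p) - average g Φ F p) * Real.log p : ℝ) : ℂ) * (p : ℂ) ^ (-(σ * Complex.I))

/-- Let `δ > 0` and `A ≥ 0`. There are `κ > 0` and `C > 0` such that for all reals `v_i ≥ 1` with `∑ v_i ^ (-u) < ∞` for all `u > τ` (`τ ≥ 0`;
for example `v_i = 2 ^ i`, `τ = 0`) and all `θ < 1` there is a set `E` of reals of Hausdorff dimension at most `(1 - κ + τ) / (1 - θ)` with the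
following property. For every real `α > 0` outside `E`, ALL genera `g`, ALL families `F ∈ ℤ[T][x]`, ALL polynomials `Φ` over `ℚ` in the power sums
`s_1, ..., s_R` of the normalised Frobenius eigenvalues, all `i ≥ i₀(α, g, F, Φ)`, ALL integers `n` with `||n| - α v_i| ≤ v_i ^ θ`, ALL integers
`x` with `(log |n|) ^ C ≤ x ≤ |n| ^ κ` and ALL real `σ` with `|σ| ≤ x ^ A`, the sum over the odd primes `p ≤ x` of
`(Φ(Frob_p | J(C_n)) - average over J(C_t), t mod p) (log p) p ^ (- i σ)` is at most `x ^ (1 / 2 + δ)` in absolute value, `C_n : y² = F_n(x)`. -/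
theorem result (δ A : ℝ) (hδ : 0 < δ) (hA : 0 ≤ A) :
    ∃ κ C : ℝ, 0 < κ ∧ 0 < C ∧ ∀ (v : ℕ → ℝ) (τ θ : ℝ), (∀ i, 1 ≤ v i) → 0 ≤ τ → θ < 1 →
      (∀ u : ℝ, τ < u → Summable (fun i => v i ^ (-u))) →
      ∃ E : Set ℝ, dimH E ≤ ENNReal.ofReal ((1 - κ + τ) / (1 - θ)) ∧
        ∀ α : ℝ, 0 < α → α ∉ E → ∀ (g : ℕ) (F : ℤ[X][X]) (R : ℕ) (Φ : MvPolynomial (Fin R) ℚ),
          ∃ i₀ : ℕ, ∀ i : ℕ, i₀ ≤ i → ∀ n : ℤ, |(|(n : ℝ)|) - α * v i| ≤ v i ^ θ →
            ∀ x : ℕ, Real.log |(n : ℝ)| ^ C ≤ x → (x : ℝ) ≤ |(n : ℝ)| ^ κ → ∀ σ : ℝ, |σ| ≤ (x : ℝ) ^ A →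
              ‖difference g Φ F n x σ‖ ≤ (x : ℝ) ^ (1 / 2 + δ) := by
  classical
  obtain ⟨κ, C, hκ, hC, H⟩ := Pool.Agent.X35.GV.centered_seq δ A 0 hδ hA le_rfl
  refine ⟨κ, C, hκ, hC, fun v τ θ hv1 hτ hθ hv => ?_⟩
  let Γ : Type := ℕ × ℤ[X][X] × (Σ R : ℕ, MvPolynomial (Fin R) ℚ)
  have hcount : Countable Γ := by
    have h0 := Pool.Agent.X35.GV.countable_pp
    have h1 := Pool.Agent.X35.GV.countable_mvq
    have h2 : Countable (Σ R : ℕ, MvPolynomial (Fin R) ℚ) := inferInstance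
    infer_instance
  have hbd : ∀ c : Γ, ∃ D : ℝ, 0 < D ∧ ∀ t : Fin c.2.2.1 → ℝ, (∀ i, |t i| ≤ 2 * (c.1 : ℝ) + 2) → |MvPolynomial.aeval t c.2.2.2| ≤ D :=
    fun c => Pool.Agent.X35.GV.poly_bdd c.2.2.2 _
  choose D hD0 hD using hbd
  obtain ⟨E, hE1, hE2⟩ := H v τ θ hv1 hτ hθ hv Γ (fun c p n => classFunction c.1 c.2.2.2 p (member c.2.1 n p)) D hD0
    (by
      intro c p hp h2 m m' h
      have : member c.2.1 m p = member c.2.1 m' p := Pool.Agent.X35.GV.mem_per c.2.1 p m m' h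
      rw [this])
    (by
      intro c p hp h2 n
      rw [Real.rpow_zero, mul_one]
      unfold classFunction
      split_ifs with hg
      · apply hD c
        intro i
        exact Pool.Agent.X35.GV.psum_bound c.1 p _ hg (i + 1) (by omega)
      · rw [abs_zero]
        exact (hD0 c).le)
  refine ⟨E, hE1, fun α hα hαE g F R Φ => ?_⟩
  obtain ⟨i₁, hi₁⟩ := hE2 α hα hαE ⟨g, F, R, Φ⟩
  refine ⟨i₁, fun i hi n hn x hx1 hx2 σ hσ => ?_⟩
  have h1 := hi₁ i hi n hn x hx1 hx2 σ hσ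
  rw [zero_add] at h1
  exact h1

end Pool.Agent.Results.MP_753a9c_nt.ClassFunctionsNearSequences
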