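import Pool.Agent.X22.ND

/-!
# The distribution of all coefficients of the normalised `L`-polynomials of hyperelliptic Jacobians of any genus whose
coefficients arise from arbitrary integers by changing a few digits

Nothing is used besides Mathlib in the statement.
-/

set_option autoImplicit false

namespace Pool.Agent.Results.MP_753a9c_nt.HyperellipticFewDigitCurves

open Finset Polynomial

/-- The polynomial `X ^ (2 g + 1) + m (2 g) X ^ (2 g) + ... + m 0` modulo `p`. -/
noncomputable def poly (p g : ℕ) (m : Fin (2 * g + 1) → ℕ) : (ZMod p)[X] := X ^ (2 * g + 1) + ∑ i, C (m i : ZMod p) * X ^ (i : ℕ)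

/-- The curve `C : Y ^ 2 = X ^ (2 g + 1) + m (2 g) X ^ (2 g) + ... + m 0` of genus `g` (model) has good reduction at the prime `p`: `p` is odd and
the polynomial has no multiple roots modulo `p`. -/
def GoodPrime (p g : ℕ) (m : Fin (2 * g + 1) → ℕ) : Prop := p ≠ 2 ∧ (poly p g m).Separable

open Classical in
/-- The number `#C(F)`, `F` the field with `p ^ k` elements, of the points of the curve, including the point at infinity. -/
noncomputable def points (p g k : ℕ) (m : Fin (2 * g + 1) → ℕ) : ℕ :=
  if h : p.Prime then
    haveI : Fact p.Prime := ⟨h⟩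
    Nat.card {P : GaloisField p k × GaloisField p k //
      P.2 ^ 2 = P.1 ^ (2 * g + 1) + ∑ i, (m i : GaloisField p k) * P.1 ^ (i : ℕ)} + 1
  else 0

/-- The sum of the `k`-th powers of the normalised Frobenius eigenvalues: `(p ^ k + 1 - #C(F)) / p ^ (k / 2)`, where
`F` is the field with `p ^ k` elements. -/
noncomputable def powerSum (p g : ℕ) (m : Fin (2 * g + 1) → ℕ) (k : ℕ) : ℝ :=
  ((p : ℝ) ^ k + 1 - points p g k m) / Real.sqrt p ^ k

/-- The coefficients `a 0, a 1, ...` of `∏ (1 - α T)`, if `s k` is the sum of the `α ^ k` (Newton's identities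
`k a k = - (s 1 a (k - 1) + ... + s k a 0)`). -/
noncomputable def newton (s : ℕ → ℝ) : ℕ → ℝ
  | 0 => 1
  | k + 1 => -(1 / ((k : ℝ) + 1)) * ∑ i : Fin (k + 1), s (i + 1) * newton s (k - i)

/-- The coefficient `a i` of `T ^ i` in the normalised `L`-polynomial of the Jacobian of the curve at `p`, for `i ≤ g` (and
`a (2 g - i) = a i`). -/
noncomputable def lcoeff (p g : ℕ) (m : Fin (2 * g + 1) → ℕ) (i : ℕ) : ℝ := newton (powerSum p g m) i

/-- The model has good reduction at `p`, and the coefficients `a 1, ..., a g` of the normalised `L`-polynomial (which determine all the others) are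
in the box: `u i ≤ a (i + 1) < v i` for `i < g`. -/
def InBox (p g : ℕ) (m : Fin (2 * g + 1) → ℕ) (u v : Fin g → ℝ) : Prop :=
  GoodPrime p g m ∧ ∀ i : Fin g, u i ≤ lcoeff p g m (i + 1) ∧ lcoeff p g m (i + 1) < v i

open Classical in
/-- The number of the primes `p ≤ x`, `p ≡ a` modulo `k`, with the property `InBox`. -/
noncomputable def count {g : ℕ} (m : Fin (2 * g + 1) → ℕ) (u v : Fin g → ℝ) (k a x : ℕ) : ℕ :=
  ((range (x + 1)).filter (fun p => p.Prime ∧ p ≡ a [MOD k] ∧ InBox p g m u v)).card

open Classical in
/-- The sum over the primes `p ≤ x`, `p ≡ a` modulo `k`, of the proportion of the property `InBox` among all vectors of coefficients modulo `p`. -/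
noncomputable def expected {g : ℕ} (u v : Fin g → ℝ) (k a x : ℕ) : ℝ :=
  ∑ p ∈ (range (x + 1)).filter (fun p => p.Prime ∧ p ≡ a [MOD k]),
    (((Fintype.piFinset (fun _ : Fin (2 * g + 1) => range p)).filter (fun n => InBox p g n u v)).card : ℝ) / (p : ℝ) ^ (2 * g + 1)

/-- For all boxes and all arithmetic progressions the number of the primes `p ≤ x` in the progression, at which
the coefficients of the normalised `L`-polynomial are in the box, differs from the expected number `V` by at most `(max 1 V) ^ (1 / 2) x ^ δ`. -/
def Law {g : ℕ} (δ : ℝ) (x : ℕ) (m : Fin (2 * g + 1) → ℕ) : Prop :=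
  ∀ (u v : Fin g → ℝ) (k a : ℕ),
    |(count m u v k a x : ℝ) - expected u v k a x| ≤ Real.sqrt (max 1 (expected u v k a x)) * (x : ℝ) ^ δ

/-- The digit number `i` (counted from the right, beginning with `0`) of `n` in base `b`. -/
def digit (b i n : ℕ) : ℕ := n / b ^ i % b

/-- The number which arises from the number `N` with at most `K` digits in base `b`, if for every `i ∈ S`
the digit number `i` is replaced by `f i`. -/
def change (b K N : ℕ) (f : ℕ → ℕ) (S : Finset ℕ) : ℕ :=
  ∑ i ∈ range K, (if i ∈ S then f i else digit b i N) * b ^ i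

open Classical in
/-- The number of the choices of `r l` of `K l` positions for all `l < d` for which the vector of the numbers obtained by
changing the digits of the `N l` at the chosen positions (according to `f l`) does not have the property `E`. -/
noncomputable def exceptions {d : ℕ} (b : ℕ) (K r N : Fin d → ℕ) (f : Fin d → ℕ → ℕ) (E : (Fin d → ℕ) → Prop) : ℕ :=
  ((Fintype.piFinset (fun l => powersetCard (r l) (range (K l)))).filter
    (fun S => ¬ E (fun l => change b (K l) (N l) (f l) (S l)))).card

lemma poly_mod (p g : ℕ) (m : Fin (2 * g + 1) → ℕ) : poly p g m = poly p g (fun i => m i % p) := by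
  unfold poly
  congr 1
  apply sum_congr rfl
  intro i _
  rw [ZMod.natCast_mod]

lemma points_mod (p g k : ℕ) (m : Fin (2 * g + 1) → ℕ) : points p g k m = points p g k (fun i => m i % p) := by
  unfold points
  by_cases h : p.Prime
  · rw [dif_pos h, dif_pos h]
    have : Fact p.Prime := ⟨h⟩
    have h1 : ∀ i, ((m i % p : ℕ) : GaloisField p k) = (m i : GaloisField p k) := by
      intro i
      rw [CharP.natCast_eq_natCast (GaloisField p k) p]
      exact Nat.mod_modEq _ _
    simp only [h1]
  · rw [dif_neg h, dif_neg h]

lemma lcoeff_mod (p g : ℕ) (m : Fin (2 * g + 1) → ℕ) (i : ℕ) : lcoeff p g m i = lcoeff p g (fun i => m i % p) i := by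
  unfold lcoeff
  congr 1
  funext k
  unfold powerSum
  rw [points_mod]

/-- Let a base `b ≥ 2`, a genus `g ≥ 1`, `δ > 0` and an integer `A ≥ 0` be given. There are `c > 0` and `y₀` such that for all integers
`r l`, `K l` (`l ≤ 2 g`), `y` with `2 r l ≤ K l` and `y ≥ y₀` the following holds.

Let `0 ≤ N l < b ^ K l` be arbitrary integers and prescribe for every position `j` a digit `f l j` different from the digit of
`N l` in base `b`. If one chooses `r l` of the `K l` positions and replaces the digits of `N l` at these positions, then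
for all but at most a proportion `1 / y ^ A` of the choices the hyperelliptic curve
`Y ^ 2 = X ^ (2 g + 1) + m (2 g) X ^ (2 g) + ... + m 0` with the numbers `m l` obtained has the following property: for all integers `x` with
`y ≤ x ≤ exp (c r l)` for all `l`, all boxes and all arithmetic progressions the number of the primes `p ≤ x` of good reduction in the progression, for which
the vector of the coefficients of the normalised `L`-polynomial of the Jacobian is in the box, differs from its expected value `V` (the sum
over the primes `p ≤ x` in the progression of the proportion of the vectors of coefficients modulo `p` with this property) by at most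
`(max 1 V) ^ (1 / 2) x ^ δ`. -/
theorem result (b g : ℕ) (hb : 2 ≤ b) (_hg : 1 ≤ g) (δ : ℝ) (hδ : 0 < δ) (A : ℕ) : ∃ c : ℝ, 0 < c ∧ ∃ y₀ : ℕ,
    ∀ (K r : Fin (2 * g + 1) → ℕ) (y : ℕ), (∀ l, 2 * r l ≤ K l) → y₀ ≤ y →
    ∀ N : Fin (2 * g + 1) → ℕ, (∀ l, N l < b ^ K l) →
    ∀ f : Fin (2 * g + 1) → ℕ → ℕ, (∀ l j, f l j < b ∧ f l j ≠ digit b j (N l)) →
      (exceptions b K r N f (fun m => ∀ x : ℕ, y ≤ x → (∀ l, (x : ℝ) ≤ Real.exp (c * r l)) → Law δ x m) : ℝ) ≤
        1 / (y : ℝ) ^ A * ∏ l, ((K l).choose (r l) : ℝ) := by
  classical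
  obtain ⟨c, hc, y₀, h⟩ := Pool.Agent.X22.ND.law_one b (2 * g + 1) g hb (by omega) δ hδ A
  refine ⟨c, hc, y₀, fun K r y hrK hy N hN f hf => ?_⟩
  have h2 := h (fun p m => GoodPrime p g m) (fun p m _ => by unfold GoodPrime; rw [poly_mod]) (fun i p m => lcoeff p g m (i + 1))
    (fun i p m _ => lcoeff_mod p g m (i + 1)) K r y hrK hy N hN f hf
    (fun m => ∀ x : ℕ, y ≤ x → (∀ l, (x : ℝ) ≤ Real.exp (c * r l)) → Law δ x m) (fun m hm x hyx hxr u v k a => by
      have h3 := hm x hyx hxr u v k a
      unfold count expected InBox
      convert h3)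
  unfold exceptions
  exact h2

end Pool.Agent.Results.MP_753a9c_nt.HyperellipticFewDigitCurves
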