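import Pool.Agent.X303.SP.Main

/-!
# The limit law of the traces of Frobenius, and its spread

`X` is a smooth projective variety over a number field `K`, of dimension `d`, and `N ≥ 1` is its `i`-th
Betti number.  For an abelian variety `X = A` over `K = ℚ` of dimension `g`, `H^i(A)` is the exterior
power `Λ^i H^1(A)`, so that `N = C(2g, i)` and the normalised trace `t p` of Frobenius on `H^i(A)` is
`(-1)^i a_i(A)(p)` for the `i`-th coefficient `a_i(A)(p)` of the normalised `L`-polynomial.  Nothing is
assumed about automorphy, and no `L`-function is assumed to be holomorphic or different from zero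
anywhere.  The definitions are in `Pool.Agent.X303.SP.SpDefs`, `Pool.Agent.X303.SC.LawDefs`,
`Pool.Agent.Y139.SM.GDefs`, `Pool.Agent.W353.EH.Defs` and `Pool.Agent.W353.EF.Defs`.
-/

set_option autoImplicit false

namespace Pool.Agent.Results.MP_753a9c_nt.TraceSpread

open NumberField IsDedekindDomain Polynomial
open Pool.Agent.X303.SC (IsTrace)
open Pool.Agent.X303.SP (DensityAtLeast HasLaw PowersContinue Algebraic Clusters)

/-- Let `N ≥ 1`.  For every `L < 4` there are `n` and `η > 0`, which depend only on `N` and `L`, such that
for all number fields `K`, all smooth projective `X` over `K` and all `i ≤ 2 dim X` such that `H^i(X)`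
has dimension `N` the following holds for the normalised traces `t v` of Frobenius on `H^i(X)`.
* If the functions `L(H^i(X)^{⊗ r}, s)` with `r ≤ 2n` continue meromorphically to a neighbourhood of the
one point `ri/2 + 1`, then there is a nonzero integral polynomial `q` of degree less than `n` such that
`q(t v)` is near to zero for almost all `v` in the sense of Dirichlet density, or the traces spread: for
every interval `I` of length `L` the primes with `t v ∉ I` have lower Dirichlet density at least `η`.
* If this continuation holds for all `r`, then the traces have a limit law; and they cluster at the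
roots of a squarefree monic integral polynomial of degree less than `n` with real roots in `[-N, N]`,
each root with a positive lower density, or they spread as before.
The same holds with the intervals replaced by the sets `{x | |Q(x)| ≤ ρ}`, where `Q` is a nonconstant
monic real polynomial and `ρ < 1`; then `n` and `η` depend only on `N`, `Q` and `ρ`. -/
theorem result (N : ℕ) (hN : 1 ≤ N) :
    (∀ L : ℝ, L < 4 → ∃ (n : ℕ) (η : ℝ), 0 < η ∧
      ∀ (K : Type) [Field K] [NumberField K] (l : ℕ) (X : Set (MvPolynomial (Fin l) (𝓞 K)))
        (d i : ℕ) (t : HeightOneSpectrum (𝓞 K) → ℝ), i ≤ 2 * d → IsTrace X d i N t →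
        (PowersContinue X d i N (2 * n) →
          Algebraic n t ∨ ∀ a : ℝ, DensityAtLeast {v | t v ∉ Set.Icc a (a + L)} η) ∧
        ((∀ R, PowersContinue X d i N R) → HasLaw t ∧
          (Clusters N n t ∨ ∀ a : ℝ, DensityAtLeast {v | t v ∉ Set.Icc a (a + L)} η))) ∧
    (∀ Q : ℝ[X], Q.Monic → 0 < Q.natDegree → ∀ ρ : ℝ, ρ < 1 → ∃ (n : ℕ) (η : ℝ), 0 < η ∧
      ∀ (K : Type) [Field K] [NumberField K] (l : ℕ) (X : Set (MvPolynomial (Fin l) (𝓞 K)))
        (d i : ℕ) (t : HeightOneSpectrum (𝓞 K) → ℝ), i ≤ 2 * d → IsTrace X d i N t →
        (PowersContinue X d i N (2 * n) →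
          Algebraic n t ∨ DensityAtLeast {v | ρ < |Q.eval (t v)|} η) ∧
        ((∀ R, PowersContinue X d i N R) → HasLaw t ∧
          (Clusters N n t ∨ DensityAtLeast {v | ρ < |Q.eval (t v)|} η))) := by
  have e : max (N : ℝ) 1 = N := max_eq_left (by exact_mod_cast hN)
  constructor
  · intro L hL
    have h := Pool.Agent.X303.SP.spread N L hL
    rwa [e] at h
  · intro Q hQ hQd ρ hρ
    have h := Pool.Agent.X303.SP.spread_monic N Q hQ hQd ρ hρ
    rwa [e] at h

end Pool.Agent.Results.MP_753a9c_nt.TraceSpread
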